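import Mathlib
import Pool.Agent.Y168.Bowl.Alt

set_option autoImplicit false

/-!
Communications blocking with `b = 0` (the regime not covered by `InvertedBowl.lean`): two jobs, any
odd number `m ≥ 5` of stations, works `M + Y` with `M` large: no optimal allocation is bowl-shaped.
The model is the one of `InvertedBowl.lean`.
-/

namespace Pool.Agent.Results.MP_eb4cdf_pr.CommBlockingNoBuffer

open MeasureTheory Pool.Agent.Y168.Bowl
open Pool.Agent.Results.MP_eb4cdf_pr.InvertedBowl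

/-- Communications blocking with buffer size `b = 0`.  Let `ν` be any probability measure on
`[0, ∞)` with finite mean and let `m ≥ 5` be odd.  For all sufficiently large constants `M`, if the
works have the law of `M + Y`, `Y ∼ ν`, then for two jobs on `m` stations an optimal allocation of
the speeds exists but no optimal allocation is bowl-shaped. -/
theorem result (ν : Measure ℝ) [IsProbabilityMeasure ν] (h0 : ∀ᵐ y ∂ν, 0 ≤ y)
    (h1 : Integrable (fun y : ℝ => y) ν) (m : ℕ) (hodd : Odd m) (hm : 5 ≤ m) :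
    ∃ M₀ : ℝ, 0 < M₀ ∧ ∀ M, M₀ ≤ M →
      (∃ s, IsOptimal (ν.map (fun y => M + y)) (.communications 0) 2 m s) ∧
        ∀ s, IsOptimal (ν.map (fun y => M + y)) (.communications 0) 2 m s → ¬ BowlShaped s := by
  obtain ⟨κ, hκ, rfl⟩ : ∃ κ, 1 ≤ κ ∧ m = 2 * κ + 1 + 1 + 1 := by
    obtain ⟨k, hk⟩ := hodd
    exact ⟨k - 1, by omega, by omega⟩
  have hab : Real.sqrt (AC κ) < Real.sqrt (BC κ) :=
    Real.sqrt_lt_sqrt (AC_pos κ).le (AC_lt_BC κ)
  set g : ℝ := (Real.sqrt (BC κ) - Real.sqrt (AC κ)) ^ 2 / 2 with hg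
  have hgpos : 0 < g := by
    have : 0 < Real.sqrt (BC κ) - Real.sqrt (AC κ) := by linarith
    positivity
  set C : ℝ := (∑ j, (sA κ j)⁻¹) * ∫ y, tt y ∂PN ν (2 * κ + 1 + 1) with hC
  refine ⟨|C| / g + 1, by positivity, fun M hM => ?_⟩
  have hC0 : 0 ≤ |C| / g := by positivity
  have hMpos : 0 < M := by linarith
  have hCM : C < M * g := by
    have h2 : |C| / g < M := by linarith
    rw [div_lt_iff₀ hgpos] at h2
    exact lt_of_le_of_lt (le_abs_self C) h2
  have e : ∀ s : Fin (2 * κ + 1 + 1 + 1) → ℝ, (∀ j, 0 < s j) →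
      expMakespan (ν.map (fun y => M + y)) (.communications 0) 2 (2 * κ + 1 + 1 + 1) s =
        FC ν (2 * κ + 1) M s := fun s hs => exp_eqC h0 hMpos.le s hs
  refine ⟨?_, ?_⟩
  · obtain ⟨s, hs, hopt⟩ := exists_opt_FC (n := 2 * κ + 1) h0 h1 hMpos
    refine ⟨s, hs, fun s' hs' => ?_⟩
    rw [e s hs.1, e s' hs'.1]
    exact hopt s' hs'
  · intro s hs hb
    have h2 := hs.2 (sA κ) (sA_mem κ)
    rw [e s hs.1.1, e (sA κ) (sA_pos κ)] at h2
    have h3 := FC_lower (κ := κ) h0 h1 hMpos.le hs.1.1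
    have h4 := FC_upper (κ := κ) h0 h1 hMpos.le
    have h5 := dual_gap hκ hs.1 hb
    have h6 := mul_le_mul_of_nonneg_left h5 hMpos.le
    rw [← hg] at h6
    rw [← hC] at h4
    nlinarith

end Pool.Agent.Results.MP_eb4cdf_pr.CommBlockingNoBuffer
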