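import Mathlib
import Pool.Agent.Y168.Bowl.Shift

set_option autoImplicit false

/-!
Two jobs, three stations, works `M + Y` with `M` large: bowl-shaped optimal allocations exist or
not according to the probability that two independent copies of `Y` coincide.  The model is the
one of `InvertedBowl.lean`.
-/

namespace Pool.Agent.Results.MP_eb4cdf_pr.LargeShiftDichotomy

open MeasureTheory Pool.Agent.Y168.Bowl
open Pool.Agent.Results.MP_eb4cdf_pr.InvertedBowl

/-- Let `ν` be any probability measure on `[0, ∞)` with finite mean and let `p` be the probability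
that two independent variables with law `ν` are equal.  For all sufficiently large constants `M`,
if the works have the law of `M + Y`, `Y ∼ ν`, then for two jobs on three stations, in every regime
except communications blocking with `b = 0`: if `(1 + p)² < 4/3` (in particular if `ν` has no
atoms) an optimal allocation exists but none is bowl-shaped, while if `(1 + p)² > 4/3` some
optimal allocation is bowl-shaped. -/
theorem result (ν : Measure ℝ) [IsProbabilityMeasure ν] (h0 : ∀ᵐ y ∂ν, 0 ≤ y)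
    (h1 : Integrable (fun y : ℝ => y) ν) :
    ∃ M₀ : ℝ, 0 ≤ M₀ ∧ ∀ M, M₀ ≤ M → ∀ r : Regime, r ≠ .communications 0 →
      ((1 + (ν.prod ν).real {z : ℝ × ℝ | z.1 = z.2}) ^ 2 < 4 / 3 →
        (∃ s, IsOptimal (ν.map (fun y => M + y)) r 2 3 s) ∧
          ∀ s, IsOptimal (ν.map (fun y => M + y)) r 2 3 s → ¬ BowlShaped s) ∧
      (4 / 3 < (1 + (ν.prod ν).real {z : ℝ × ℝ | z.1 = z.2}) ^ 2 →
        ∃ s, IsOptimal (ν.map (fun y => M + y)) r 2 3 s ∧ BowlShaped s) := by
  obtain ⟨M₀, hM₀, h⟩ := shift_dichotomy h0 h1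
  refine ⟨M₀, hM₀, fun M hM r hr => ?_⟩
  have hM0 : 0 ≤ M := hM₀.trans hM
  have g0 : ∀ᵐ x ∂shiftLaw ν M, 0 ≤ x := shift_nn h0 hM0
  have g1 : Integrable (fun x : ℝ => x) (shiftLaw ν M) := shift_int h1 M
  have key : ∀ s, s ∈ allocations 3 →
      (∀ s' ∈ allocations 3, FF (shiftLaw ν M) s ≤ FF (shiftLaw ν M) s') →
      IsOptimal (shiftLaw ν M) r 2 3 s := by
    intro s hs hopt
    refine ⟨hs, fun s' hs' => ?_⟩
    rw [exp_eq g0 r hr s hs.1, exp_eq g0 r hr s' hs'.1]
    exact hopt s' hs'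
  obtain ⟨ha, hb⟩ := h M hM
  refine ⟨fun hp => ⟨?_, ?_⟩, fun hp => ?_⟩
  · obtain ⟨s, hs, hopt⟩ := exists_opt_FF g0 g1
    exact ⟨s, key s hs hopt⟩
  · intro s hs hbowl
    refine not_bowl g0 g1 (ha hp) hs.1 (fun s' hs' => ?_) hbowl
    have h3 : expMakespan (shiftLaw ν M) r 2 3 s ≤ expMakespan (shiftLaw ν M) r 2 3 s' :=
      hs.2 s' hs'
    rwa [exp_eq g0 r hr s hs.1.1, exp_eq g0 r hr s' hs'.1] at h3
  · obtain ⟨s, hs, hopt, hbowl⟩ := exists_bowl g0 g1 (hb hp)
    exact ⟨s, key s hs hopt, hbowl⟩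

end Pool.Agent.Results.MP_eb4cdf_pr.LargeShiftDichotomy
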