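import Mathlib
import Pool.Agent.Y168.Bowl.Comm23

set_option autoImplicit false

/-!
Two jobs, three stations: for every distribution of the works and every blocking regime, exact
criterion for the existence of a bowl-shaped optimal allocation.  The model (`Regime`, `depart`,
`occ`, `expMakespan`, `allocations`, `IsOptimal`, `BowlShaped`) is the one of `InvertedBowl.lean`;
`maxWork` and `critMid` are defined in `Pool/Agent/Y168/Bowl/Det.lean`.
-/

namespace Pool.Agent.Results.MP_eb4cdf_pr.TwoByThreeComplete

open MeasureTheory Pool.Agent.Y168.Bowl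
open Pool.Agent.Results.MP_eb4cdf_pr.InvertedBowl

/-- Let `μ` be any law of the works (a probability measure on `[0, ∞)` with finite mean), let
`n = 2`, `m = 3`, and take any regime: unlimited buffers, manufacturing blocking with any `b`,
communications blocking with any `b`.  Then an optimal allocation exists, and some optimal
allocation is bowl-shaped if and only if the regime is communications blocking with `b = 0` or
`E W ≤ 3 E R`.  Here `W = maxWork x` is the largest total work along a monotone path from
(job 1, station 1) to (job 2, station 3), and `R = critMid x` is the largest amount of work of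
station 2 along such a path of largest total work. -/
theorem result (μ : Measure ℝ) [IsProbabilityMeasure μ] (h0 : ∀ᵐ x ∂μ, 0 ≤ x)
    (h1 : Integrable (fun x : ℝ => x) μ) (r : Regime) :
    (∃ s, IsOptimal μ r 2 3 s) ∧
    ((∃ s, IsOptimal μ r 2 3 s ∧ BowlShaped s) ↔
      (r = .communications 0 ∨
        ∫ x, maxWork x ∂(Measure.pi fun _ : Fin 2 => Measure.pi fun _ : Fin 3 => μ) ≤
          3 * ∫ x, critMid x ∂(Measure.pi fun _ : Fin 2 => Measure.pi fun _ : Fin 3 => μ))) := by
  by_cases hr : r = .communications 0
  · subst hr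
    obtain ⟨s, hs, hopt, hb⟩ := exists_bowl_D h0 h1
    have hIs : IsOptimal μ (.communications 0) 2 3 s := by
      refine ⟨hs, fun s' hs' => ?_⟩
      rw [exp_eqD h0 s hs.1, exp_eqD h0 s' hs'.1]
      exact hopt s' hs'
    exact ⟨⟨s, hIs⟩, fun _ => Or.inl rfl, fun _ => ⟨s, hIs, hb⟩⟩
  · have key : ∀ s, s ∈ allocations 3 → (∀ s' ∈ allocations 3, FF μ s ≤ FF μ s') →
        IsOptimal μ r 2 3 s := by
      intro s hs hopt
      refine ⟨hs, fun s' hs' => ?_⟩
      rw [exp_eq h0 r hr s hs.1, exp_eq h0 r hr s' hs'.1]
      exact hopt s' hs'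
    refine ⟨?_, ?_, ?_⟩
    · obtain ⟨s, hs, hopt⟩ := exists_opt_FF h0 h1
      exact ⟨s, key s hs hopt⟩
    · rintro ⟨s, hs, hb⟩
      right
      by_contra hcon
      push Not at hcon
      refine not_bowl h0 h1 hcon hs.1 (fun s' hs' => ?_) hb
      have := hs.2 s' hs'
      rwa [exp_eq h0 r hr s hs.1.1, exp_eq h0 r hr s' hs'.1] at this
    · rintro (h | h)
      · exact absurd h hr
      · obtain ⟨s, hs, hopt, hb⟩ := exists_bowl h0 h1 h
        exact ⟨s, key s hs hopt, hb⟩

end Pool.Agent.Results.MP_eb4cdf_pr.TwoByThreeComplete
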