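import Mathlib
import Pool.Agent.Y168.Bowl.Better

set_option autoImplicit false

/-!
Two jobs, any number `m ≥ 3` of stations, works `M + Y` with `Y` atomless and `M` large: no optimal
allocation is bowl-shaped.  The model is the one of `InvertedBowl.lean`.
-/

namespace Pool.Agent.Results.MP_eb4cdf_pr.TwoJobsManyStations

open MeasureTheory Pool.Agent.Y168.Bowl
open Pool.Agent.Results.MP_eb4cdf_pr.InvertedBowl

/-- Let `ν` be any probability measure on `[0, ∞)` with finite mean and without atoms, and let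
`m ≥ 3`.  For all sufficiently large constants `M`, if the works have the law of `M + Y`, `Y ∼ ν`,
then for two jobs on `m` stations, in every regime except communications blocking with `b = 0`,
an optimal allocation of the speeds exists but no optimal allocation is bowl-shaped. -/
theorem result (ν : Measure ℝ) [IsProbabilityMeasure ν] (h0 : ∀ᵐ y ∂ν, 0 ≤ y)
    (h1 : Integrable (fun y : ℝ => y) ν) (hν : ∀ a, ν {a} = 0) (m : ℕ) (hm : 3 ≤ m) :
    ∃ M₀ : ℝ, 0 < M₀ ∧ ∀ M, M₀ ≤ M → ∀ r : Regime, r ≠ .communications 0 →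
      (∃ s, IsOptimal (ν.map (fun y => M + y)) r 2 m s) ∧
        ∀ s, IsOptimal (ν.map (fun y => M + y)) r 2 m s → ¬ BowlShaped s := by
  obtain ⟨N, rfl⟩ : ∃ N, m = N + 1 := ⟨m - 1, by omega⟩
  have hN : 2 ≤ N := by omega
  obtain ⟨M₀, hM₀, hW⟩ := exists_M0 h0 h1 hν N
  refine ⟨M₀, hM₀, fun M hM r hr => ⟨?_, ?_⟩⟩
  · obtain ⟨s, hs, hopt⟩ := exists_opt_FN (N := N) h0 h1 (show 0 < M by linarith)
    refine ⟨s, hs, fun s' hs' => ?_⟩
    have e1 : expMakespan (ν.map (fun y => M + y)) r 2 (N + 1) s = FN ν N M s :=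
      exp_eqN h0 (by linarith) r hr s hs.1
    have e2 : expMakespan (ν.map (fun y => M + y)) r 2 (N + 1) s' = FN ν N M s' :=
      exp_eqN h0 (by linarith) r hr s' hs'.1
    rw [e1, e2]
    exact hopt s' hs'
  · intro s hs hb
    have hM0 : 0 ≤ M := by linarith
    have hk : (⟨1, by omega⟩ : Fin (N + 1)) ≠ 0 := by
      intro hcon
      have := congrArg Fin.val hcon
      simp at this
    have hlt : WW ν N M ⟨1, by omega⟩ < WW ν N M 0 := by
      refine hW M hM 0 ⟨1, by omega⟩ ?_
      simp only [Fin.val_zero]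
      omega
    obtain ⟨s', hs', hbetter⟩ := exists_betterN h0 h1 hν hN hM0 hk hlt
    have hcheb := FN_cheb h0 h1 hν hM0 hs.1 (fun i j hij =>
      (hW M hM i j (bowl_dist hb hij)).le)
    have hopt := hs.2 s' hs'
    have e1 : expMakespan (ν.map (fun y => M + y)) r 2 (N + 1) s = FN ν N M s :=
      exp_eqN h0 hM0 r hr s hs.1.1
    have e2 : expMakespan (ν.map (fun y => M + y)) r 2 (N + 1) s' = FN ν N M s' :=
      exp_eqN h0 hM0 r hr s' hs'.1
    rw [e1, e2] at hopt
    linarith

end Pool.Agent.Results.MP_eb4cdf_pr.TwoJobsManyStations
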